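import Pool.Agent.X245.FS.Hard
import Pool.Agent.X245.FS.Mem

/-!
# FEAS is NP-complete

`FEAS α` (in `Pool.Agent.X245.FS.Defs`): the letters are `0, …, n - 1` where `n` is the length of
the list `α` of vectors; `D` is the total number of components; every `α[i]` is a decomposition
vector of `D` (positive, non-increasing, of sum `D`), and some word of length `D` over the letters
has, for every letter `i`, the multiset of cyclic distances of `i` equal to `α[i]`.

The reduction is from exact cover by 3-sets via exact bin packing with polynomially bounded
numbers: a letter all of whose distances are `B + 1` cuts the cycle into bins of size `B`, and a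
letter with the distances `D - a + 1, 1, …, 1` fills an interval of length `a`.
-/

namespace Pool.Agent.Results.MP_0403ae_lc.FeasNPComplete

open Pool.Agent.NPC Pool.Agent.X245.FS

/-- `FEAS` is `NP`-complete. -/
theorem result : InNPP FEAS ∧ NPHardP FEAS := ⟨inNPP_FEAS, hardI_FEAS.toNPHardP⟩

end Pool.Agent.Results.MP_0403ae_lc.FeasNPComplete
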